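import Pool.Agent.Lib_helper51.Flat.Final

set_option autoImplicit false

open Finset

namespace Pool.Agent.Results.MP_cf5f8b_an.EqualInfluences

/-- The average of `g` over the cube (a bit `b` stands for the sign `(-1)^b`). -/
noncomputable def E {n : ℕ} (g : (Fin n → Bool) → ℝ) : ℝ :=
  ((2 : ℝ) ^ n)⁻¹ * ∑ x : Fin n → Bool, g x

/-- The Fourier coefficient of `f` at the set `T`. -/
noncomputable def fhat {n : ℕ} (f : (Fin n → Bool) → ℝ) (T : Finset (Fin n)) : ℝ :=
  E fun x => f x * ∏ i ∈ T, (-1 : ℝ) ^ (x i).toNat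

open Classical in
/-- The degree of `f`: the largest size of a set `T` with `fhat f T ≠ 0`. -/
noncomputable def deg {n : ℕ} (f : (Fin n → Bool) → ℝ) : ℕ :=
  (univ.filter fun T : Finset (Fin n) => fhat f T ≠ 0).sup Finset.card

/-- The variance of `f`. -/
noncomputable def Var {n : ℕ} (f : (Fin n → Bool) → ℝ) : ℝ := E (fun x => f x ^ 2) - E f ^ 2

/-- The influence of the coordinate `j`. -/
noncomputable def Inf {n : ℕ} (f : (Fin n → Bool) → ℝ) (j : Fin n) : ℝ :=
  E fun x => ((f x - f (Function.update x j (!x j))) / 2) ^ 2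

/-- `f` takes values in `[-1,1]`. -/
def Bounded {n : ℕ} (f : (Fin n → Bool) → ℝ) : Prop := ∀ x, |f x| ≤ 1

/-- All influences of `f` are equal. -/
def EqualInf {n : ℕ} (f : (Fin n → Bool) → ℝ) : Prop := ∀ i j, Inf f i = Inf f j

/-- The collective influence of the coalition `S`: the expectation over `x` of the largest change
`|f z - f x|` over all `z` which agree with `x` outside `S`. -/
noncomputable def Coal {n : ℕ} (f : (Fin n → Bool) → ℝ) (S : Finset (Fin n)) : ℝ :=
  E fun x => (univ.filter fun z : Fin n → Bool => ∀ i, i ∉ S → z i = x i).sup'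
    ⟨x, mem_filter.2 ⟨mem_univ x, fun _ _ => rfl⟩⟩ fun z => |f z - f x|

/-- **The Aaronson-Ambainis conjecture** (Q1) for the functions satisfying `P`. -/
def AA (P : ∀ n : ℕ, ((Fin n → Bool) → ℝ) → Prop) : Prop :=
  ∃ C₁ C₂ : ℝ, 0 < C₁ ∧ 0 < C₂ ∧ ∀ (n : ℕ) (f : (Fin n → Bool) → ℝ), Bounded f → 0 < Var f →
    P n f → ∃ j, C₁ * (Var f / deg f) ^ C₂ ≤ Inf f j

/-! ### Comparison with the library -/

open Pool.Agent

lemma E_eq {n : ℕ} (g : (Fin n → Bool) → ℝ) : E g = Lib_helper8.QP.av g := by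
  unfold E Lib_helper8.QP.av
  rw [Fintype.card_fin]

lemma fhat_eq {n : ℕ} (f : (Fin n → Bool) → ℝ) (T : Finset (Fin n)) :
    fhat f T = Lib_helper30.AA.coef f T := by
  unfold fhat E Lib_helper30.AA.coef Lib_helper30.AA.chi
  rw [Fintype.card_fin]

lemma Var_eq {n : ℕ} (f : (Fin n → Bool) → ℝ) : Var f = Lib_helper12.CERT.vr f := by
  unfold Var Lib_helper12.CERT.vr
  rw [E_eq, E_eq]

lemma Inf_eq {n : ℕ} (f : (Fin n → Bool) → ℝ) (j : Fin n) :
    Inf f j = Lib_helper12.CERT.wt f j := by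
  unfold Inf
  rw [E_eq, Lib_helper12.CERT.wt_eq]
  rfl

lemma deg_le {n d : ℕ} {f : (Fin n → Bool) → ℝ} : deg f ≤ d ↔ Lib_helper8.QP.LowDeg d f := by
  classical
  unfold deg Lib_helper8.QP.LowDeg
  rw [Finset.sup_le_iff]
  simp only [Finset.mem_filter, Finset.mem_univ, true_and, ← fhat_eq]
  constructor
  · intro h T hT
    by_contra hne
    exact absurd (h T hne) (not_le.2 hT)
  · intro h T hne
    by_contra hcon
    exact hne (h T (not_le.1 hcon))

lemma le_deg {n : ℕ} {f : (Fin n → Bool) → ℝ} {y : ℝ} (hy : 0 < y) :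
    y ≤ deg f ↔ ∃ T : Finset (Fin n), y ≤ T.card ∧ Lib_helper30.AA.coef f T ≠ 0 := by
  classical
  constructor
  · intro h
    have hne : (univ.filter fun T : Finset (Fin n) => fhat f T ≠ 0).Nonempty := by
      by_contra hcon
      rw [Finset.not_nonempty_iff_eq_empty] at hcon
      unfold deg at h
      rw [hcon, Finset.sup_empty] at h
      simp only [bot_eq_zero', Nat.cast_zero] at h
      linarith
    obtain ⟨T, hT, hTc⟩ := Finset.exists_mem_eq_sup _ hne Finset.card
    refine ⟨T, ?_, ?_⟩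
    · rw [← hTc]
      exact h
    · rw [← fhat_eq]
      exact (Finset.mem_filter.1 hT).2
  · rintro ⟨T, hT, hne⟩
    refine hT.trans ?_
    have h1 : T.card ≤ deg f := by
      unfold deg
      refine Finset.le_sup (f := Finset.card) ?_
      rw [Finset.mem_filter]
      exact ⟨Finset.mem_univ _, by rw [fhat_eq]; exact hne⟩
    exact_mod_cast h1

lemma one_le_deg {n : ℕ} {f : (Fin n → Bool) → ℝ} (h : 0 < Var f) : 1 ≤ deg f := by
  by_contra hcon
  have h1 : deg f ≤ 0 := by omega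
  rw [deg_le] at h1
  rw [Var_eq, Lib_helper12.CERT.vr_eq] at h
  have h2 : ∑ T ∈ univ.filter (fun T : Finset (Fin n) => T.Nonempty),
      Lib_helper30.AA.coef f T ^ 2 = 0 := by
    refine Finset.sum_eq_zero fun T hT => ?_
    rw [h1 T (Finset.card_pos.2 (Finset.mem_filter.1 hT).2)]
    norm_num
  linarith

lemma Coal_eq {n : ℕ} (f : (Fin n → Bool) → ℝ) (S : Finset (Fin n)) :
    Coal f S = Lib_helper12.CERT.Osc f S := by
  unfold Coal Lib_helper12.CERT.Osc
  rw [E_eq]
  congr 1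
  funext x
  apply le_antisymm
  · refine Finset.sup'_le _ _ fun z hz => ?_
    rw [mem_filter] at hz
    obtain ⟨D, rfl⟩ := Lib_helper12.CERT.exists_flipSet z x
    refine Lib_helper12.CERT.le_osc ?_ x
    intro i hi
    by_contra hcon
    have h1 := hz.2 i hcon
    unfold Lib_helper30.AA.flipSet at h1
    rw [if_pos hi] at h1
    cases hx : x i <;> simp_all
  · obtain ⟨B, hB, h⟩ := Lib_helper12.CERT.exists_osc f S x
    rw [h]
    refine Finset.le_sup' (fun z => |f z - f x|) ?_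
    rw [mem_filter]
    refine ⟨mem_univ _, fun i hi => ?_⟩
    unfold Lib_helper30.AA.flipSet
    rw [if_neg fun h => hi (hB h)]

/-- **The Aaronson-Ambainis conjecture is equivalent to its case of almost Boolean functions with
equal influences.** For every `0 < ε ≤ 1/2` the following are equivalent:

1. the Aaronson-Ambainis conjecture (Q1);
2. the Aaronson-Ambainis conjecture for the functions with all influences equal and variance at
   least `1 - ε`;
3. for some `δ > 0` and all large `n`, every `f : {-1,1}^n → [-1,1]` with all influences equal and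
   variance at least `1 - ε` has degree at least `n^δ`;
4. for some `0 < δ ≤ 1` and all large `n`, every `f : {-1,1}^n → [-1,1]` with all influences equal,
   variance at least `1 - n^(-δ/10000)`, and collective influence at most `n^(-1+δ) |T|` for every
   coalition `T` has degree at least `n^δ`.

In particular (`4 → 1`) the single question whether these very special functions have degree at
least `n^δ`, for one `δ` of our choice, decides the conjecture. -/
theorem result : ∀ ε : ℝ, 0 < ε → ε ≤ 1 / 2 → List.TFAE [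
    AA fun _ _ => True,
    AA fun _ f => EqualInf f ∧ 1 - ε ≤ Var f,
    ∃ δ : ℝ, 0 < δ ∧ ∃ n₀ : ℕ, ∀ n : ℕ, n₀ ≤ n → ∀ f : (Fin n → Bool) → ℝ,
      Bounded f → EqualInf f → 1 - ε ≤ Var f → (n : ℝ) ^ δ ≤ deg f,
    ∃ δ : ℝ, 0 < δ ∧ δ ≤ 1 ∧ ∃ n₀ : ℕ, ∀ n : ℕ, n₀ ≤ n → ∀ f : (Fin n → Bool) → ℝ,
      Bounded f → EqualInf f → 1 - (n : ℝ) ^ (-(δ / 10000)) ≤ Var f →
      (∀ T : Finset (Fin n), Coal f T ≤ (n : ℝ) ^ (-1 + δ) * T.card) → (n : ℝ) ^ δ ≤ deg f] := by
  classical
  intro ε hε hε2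
  have h41 : (∃ δ : ℝ, 0 < δ ∧ δ ≤ 1 ∧ ∃ n₀ : ℕ, ∀ n : ℕ, n₀ ≤ n →
      ∀ f : (Fin n → Bool) → ℝ, Bounded f → EqualInf f →
      1 - (n : ℝ) ^ (-(δ / 10000)) ≤ Var f →
      (∀ T : Finset (Fin n), Coal f T ≤ (n : ℝ) ^ (-1 + δ) * T.card) → (n : ℝ) ^ δ ≤ deg f) →
      AA fun _ _ => True := by
    rintro ⟨δ, hδ, hδ1, n₀, H⟩
    obtain ⟨A, hA⟩ := Lib_helper51.Flat.key hδ hδ1 (n₀ := n₀ + 1) (by
      intro m hm G hG hv hw hO
      have hm0 : (0 : ℝ) < m := by
        have : 0 < m := by omega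
        exact_mod_cast this
      rw [← le_deg (Real.rpow_pos_of_pos hm0 δ)]
      refine H m (by omega) G hG ?_ (by rw [Var_eq]; exact hv) ?_
      · intro i j
        rw [Inf_eq, Inf_eq]
        exact hw i j
      · intro T
        rw [Coal_eq, mul_comm]
        exact hO T)
    refine ⟨(1 / 2) ^ (A + 1), (A + 1 : ℕ), by positivity, by positivity,
      fun n f hf hV _ => ?_⟩
    have hdeg := one_le_deg hV
    obtain ⟨j, hj⟩ := hA n (deg f) f hdeg hf (deg_le.1 le_rfl) (by rw [← Var_eq]; exact hV)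
    refine ⟨j, ?_⟩
    rw [Inf_eq]
    refine le_trans ?_ hj
    have hd' : (1 : ℝ) ≤ deg f := by exact_mod_cast hdeg
    have hV1 : Var f ≤ 1 := by
      rw [Var_eq]
      exact Lib_helper51.Flat.vr_le_one' hf
    have hq0 : 0 < Var f / (2 * deg f) := by positivity
    have hq1 : Var f / (2 * deg f) ≤ 1 := by
      rw [div_le_one (by positivity)]
      linarith
    rw [Real.rpow_natCast, ← mul_pow, ← Var_eq]
    have h3 : 1 / 2 * (Var f / deg f) = Var f / (2 * deg f) := by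
      field_simp
    rw [h3]
    exact pow_le_pow_of_le_one hq0.le hq1 (by omega)
  have h12 : (AA fun _ _ => True) → AA fun _ f => EqualInf f ∧ 1 - ε ≤ Var f := by
    rintro ⟨C₁, C₂, h1, h2, h⟩
    exact ⟨C₁, C₂, h1, h2, fun n f hf hV _ => h n f hf hV trivial⟩
  have h23 : (AA fun _ f => EqualInf f ∧ 1 - ε ≤ Var f) →
      ∃ δ : ℝ, 0 < δ ∧ ∃ n₀ : ℕ, ∀ n : ℕ, n₀ ≤ n →
      ∀ f : (Fin n → Bool) → ℝ, Bounded f → EqualInf f → 1 - ε ≤ Var f →
        (n : ℝ) ^ δ ≤ deg f := by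
    rintro ⟨C₁, C₂, h1, h2, h⟩
    obtain ⟨δ, n₀, hδ, H⟩ := Lib_helper51.Flat.converse h1 h2 (v := 1 - ε) (by linarith) (by
      intro n d f hd1 hf hlow hV hw
      rw [← Var_eq] at hV
      have hV0 : 0 < Var f := by linarith
      obtain ⟨j, hj⟩ := h n f hf hV0 ⟨fun i j => by
        rw [Inf_eq, Inf_eq]
        exact hw i j, hV⟩
      refine ⟨j, ?_⟩
      rw [← Var_eq, ← Inf_eq]
      refine le_trans ?_ hj
      have hdeg : (1 : ℝ) ≤ deg f := by exact_mod_cast one_le_deg hV0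
      have hle : (deg f : ℝ) ≤ d := by exact_mod_cast deg_le.2 hlow
      refine mul_le_mul_of_nonneg_left ?_ h1.le
      refine Real.rpow_le_rpow (by positivity) ?_ h2.le
      exact div_le_div_of_nonneg_left hV0.le (by linarith) hle)
    refine ⟨δ, hδ, n₀ + 1, fun n hn f hf hw hV => ?_⟩
    have hn0 : (0 : ℝ) < n := by
      have : 0 < n := by omega
      exact_mod_cast this
    rw [le_deg (Real.rpow_pos_of_pos hn0 δ)]
    exact H n (by omega) f hf (by rw [← Var_eq]; exact hV) fun i j => by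
      rw [← Inf_eq, ← Inf_eq]
      exact hw i j
  have h34 : (∃ δ : ℝ, 0 < δ ∧ ∃ n₀ : ℕ, ∀ n : ℕ, n₀ ≤ n →
      ∀ f : (Fin n → Bool) → ℝ, Bounded f → EqualInf f → 1 - ε ≤ Var f →
        (n : ℝ) ^ δ ≤ deg f) →
      ∃ δ : ℝ, 0 < δ ∧ δ ≤ 1 ∧ ∃ n₀ : ℕ, ∀ n : ℕ, n₀ ≤ n →
      ∀ f : (Fin n → Bool) → ℝ, Bounded f → EqualInf f →
      1 - (n : ℝ) ^ (-(δ / 10000)) ≤ Var f →
      (∀ T : Finset (Fin n), Coal f T ≤ (n : ℝ) ^ (-1 + δ) * T.card) →
        (n : ℝ) ^ δ ≤ deg f := by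
    rintro ⟨δ, hδ, n₀, H⟩
    have hδ' : 0 < min δ 1 / 10000 := by
      have := lt_min hδ one_pos
      positivity
    have h5 : ∀ᶠ n : ℕ in Filter.atTop, (n : ℝ) ^ (-(min δ 1 / 10000)) ≤ ε :=
      ((tendsto_rpow_neg_atTop hδ').comp tendsto_natCast_atTop_atTop).eventually_le_const hε
    obtain ⟨n₁, hn₁⟩ := Filter.eventually_atTop.1 h5
    refine ⟨min δ 1, lt_min hδ one_pos, min_le_right _ _, n₀ + n₁ + 1,
      fun n hn f hf hw hV _ => ?_⟩
    have hn1 : (1 : ℝ) ≤ n := by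
      have : 1 ≤ n := by omega
      exact_mod_cast this
    have h6 := hn₁ n (by omega)
    exact (Real.rpow_le_rpow_of_exponent_le hn1 (min_le_left _ _)).trans
      (H n (by omega) f hf hw (by linarith))
  tfae_have 1 → 2 := h12
  tfae_have 2 → 3 := h23
  tfae_have 3 → 4 := h34
  tfae_have 4 → 1 := h41
  tfae_finish

end Pool.Agent.Results.MP_cf5f8b_an.EqualInfluences
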