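import Pool.Agent.Lib_helper8.GAP.Final

set_option autoImplicit false

namespace Pool.Agent.Results.MP_cf5f8b_an.GapInDistribution

open Pool.Agent.Lib_helper8.GAP (pr inf DegLE DTree)
open Pool.Agent.Lib_helper8.QAA (Algorithm)

/-- **The Aaronson-Ambainis conjecture for functions with a gap in their distribution.**

Let `f : {-1,1}^I → [-1,1]` have degree at most `d`, and let `a < b`, `b - a ≤ 2`.
(a) If `P(f ≥ b) ≥ v`, `P(f ≤ a) ≥ v` and `P(a < f < b) ≤ exp(-(64 d / ((b - a) v))^40)` then some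
    influence of `f` is at least `((b - a) v / (64 d))^40`: a variable of polynomial influence.
(b) If `P(a < f < b) ≤ exp(-(256 d / ((b - a) ε))^41)`, `0 < ε ≤ 1`, then there is a decision tree
    of depth at most `(256 d / ((b - a) ε))^41` which decides whether `f(x) ≥ b` for all but a
    fraction `ε` of the inputs `x`.
(c) In particular, if a quantum algorithm with `r` rounds of `p` parallel queries computes
    `F : {-1,1}^I → {0,1}` with error at most `1/3` on all but a fraction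
    `exp(-(3072 p r / ε)^41)` of the inputs then a decision tree of depth at most
    `(3072 p r / ε)^41` computes `F` on all but a fraction `ε` of the inputs. -/
theorem result :
    (∀ (I : Type) [Fintype I] [DecidableEq I] (d : ℕ) (f : (I → Bool) → ℝ) (a b : ℝ), 1 ≤ d →
      (∀ x, |f x| ≤ 1) → DegLE f d → a < b → b - a ≤ 2 →
      (∀ v : ℝ, 0 < v → v ≤ pr {x | b ≤ f x} → v ≤ pr {x | f x ≤ a} →
        pr {x | a < f x ∧ f x < b} ≤ Real.exp (-(64 * d / ((b - a) * v)) ^ 40) →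
        ∃ j, ((b - a) * v / (64 * d)) ^ 40 ≤ inf f j) ∧
      (∀ ε : ℝ, 0 < ε → ε ≤ 1 →
        pr {x | a < f x ∧ f x < b} ≤ Real.exp (-(256 * d / ((b - a) * ε)) ^ 41) →
        ∃ t : DTree I, (t.depth : ℝ) ≤ (256 * d / ((b - a) * ε)) ^ 41 ∧
          pr {x | ¬ (t.eval x = true ↔ b ≤ f x)} ≤ ε)) ∧
    (∀ (I A : Type) [Fintype I] [DecidableEq I] [Fintype A] (p r : ℕ) (Q : Algorithm I A p)
      (F : (I → Bool) → Bool) (ε : ℝ), 1 ≤ p → 1 ≤ r → 0 < ε → ε ≤ 1 →
      pr {x | ¬ ((F x = true → 2 / 3 ≤ Q.prob r x) ∧ (F x = false → Q.prob r x ≤ 1 / 3))} ≤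
        Real.exp (-(3072 * (p * r) / ε) ^ 41) →
      ∃ t : DTree I, (t.depth : ℝ) ≤ (3072 * (p * r) / ε) ^ 41 ∧
        pr {x | t.eval x ≠ F x} ≤ ε) := by
  refine ⟨?_, ?_⟩
  · intro I _ _ d f a b hd hf hdeg hab hab2
    exact ⟨fun v hv h1 h2 hgap => Lib_helper30.AA.GAP.final_inf hf hd hdeg hab hv h1 h2 hgap,
      fun ε hε hε1 hgap => Lib_helper30.AA.GAP.final_tree hf hd hdeg hab hab2 hε hε1 hgap⟩
  · intro I A _ _ _ p r Q F ε hp hr hε hε1 hF
    exact Lib_helper30.AA.GAP.final_quantum Q hp hr F hε hε1 hF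

end Pool.Agent.Results.MP_cf5f8b_an.GapInDistribution
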